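import Pool.Agent.H76.CP.Form

/-!
# A Chen type theorem for systems of irreducible polynomials, two of them linear, with the Bateman-Horn constant
-/

set_option autoImplicit false

namespace Pool.Agent.Results.MP_51e72e_nt.ChenTwoLinear

open Finset Polynomial Pool.Agent.H76.CL Pool.Agent.H76.CP

/-- **A Chen type theorem for systems of polynomials.**  Let `k`, `D` and `K ≥ 1` be integers and let `θ > 0`.  There
are `c, ε > 0`, `r` and `x₀` such that for all `x ≥ x₀`, all `y ≤ (1 - θ) x` and every set `F` of `k` nonconstant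
irreducible polynomials with integer coefficients, with the sum of the degrees at most `D` and coefficients at most
`x ^ K` in absolute value, and for any two linear polynomials `f ≠ ± g` in `F` with leading coefficients at most `K` and
constant terms at most `K x` in absolute value: for at least `c C x / (log x) ^ k` of the integers `y < n ≤ x` the number
`|f n|` is a prime, `|g n|` is a prime or a product of two primes, both `≥ x ^ (1 / 9)`, and all the `|h n|`, `h` in `F`,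
have at most `r` prime factors, all of them `≥ x ^ ε`.  Here `C` is the partial product over the primes `p ≤ x` of the
Bateman-Horn constant of `F`. -/
theorem result : ∀ k D K : ℕ, 1 ≤ K → ∀ θ : ℝ, 0 < θ →
    ∃ c ε : ℝ, 0 < c ∧ 0 < ε ∧ ∃ r x₀ : ℕ, ∀ x : ℕ, x₀ ≤ x → ∀ y : ℕ, (y : ℝ) + θ * x ≤ x →
      ∀ F : Finset ℤ[X], F.card = k → (∀ h ∈ F, Irreducible h ∧ h.natDegree ≠ 0) → ∑ h ∈ F, h.natDegree ≤ D →
      (∀ h ∈ F, ∀ i, |h.coeff i| ≤ (x : ℤ) ^ K) →
      ∀ f ∈ F, ∀ g ∈ F, f ≠ g → f ≠ -g → f.natDegree = 1 → g.natDegree = 1 →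
      |f.leadingCoeff| ≤ K → |g.leadingCoeff| ≤ K → |f.coeff 0| ≤ K * x → |g.coeff 0| ≤ K * x →
        c * (∏ p ∈ (Icc 1 x).filter Nat.Prime,
            (1 - (((range p).filter (fun n : ℕ => (p : ℤ) ∣ ∏ h ∈ F, h.eval (n : ℤ))).card : ℝ) / p) /
              (1 - 1 / (p : ℝ)) ^ k) * (x / Real.log x ^ k) ≤
          ({n : ℕ | y < n ∧ n ≤ x ∧ (f.eval (n : ℤ)).natAbs.Prime ∧
            (g.eval (n : ℤ)).natAbs.primeFactorsList.length ≤ 2 ∧
            (∀ q ∈ (g.eval (n : ℤ)).natAbs.primeFactors, (x : ℝ) ^ (1 / 9 : ℝ) ≤ q) ∧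
            ∀ h ∈ F, (h.eval (n : ℤ)).natAbs.primeFactorsList.length ≤ r ∧
              ∀ q ∈ (h.eval (n : ℤ)).natAbs.primeFactors, (x : ℝ) ^ ε ≤ q}.ncard : ℝ) := by
  intro k D K hK θ hθ
  obtain ⟨ε, c, hε0, hc, r, B₀, hB₀⟩ := chen_poly (D + 2) K (by omega) hK θ hθ
  obtain ⟨c', hc', hform⟩ := sing_T k
  refine ⟨c * c', ε, by positivity, hε0, r, B₀ + D + 4, ?_⟩
  intro x hx y hy F hFk hirr hdeg hco f hf g hg hfg hfg' hf1 hg1 hfK hgK hf0 hg0
  set ν : ℕ → ℕ := fun p => ((range p).filter (fun n : ℕ => (p : ℤ) ∣ ∏ h ∈ F, h.eval (n : ℤ))).card with hν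
  have hν1 : ∀ p : ℕ, p.Prime → (rtT (TP F) p).card ≤ ν p := by
    intro p hp
    apply card_le_card
    intro m hm
    rw [mem_rtT] at hm
    obtain ⟨h1, h, hh, h2⟩ := hm
    rw [mem_filter, mem_range]
    exact ⟨h1, h2.trans (dvd_prod_of_mem (fun h : ℤ[X] => h.eval (m : ℤ)) hh)⟩
  have hν2 : ∀ p : ℕ, p.Prime → ν p ≤ p := by
    intro p hp
    have := card_le_card (filter_subset (fun n : ℕ => (p : ℤ) ∣ ∏ h ∈ F, h.eval (n : ℤ)) (range p))
    rwa [card_range] at this
  by_cases hadm : PAdm F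
  swap
  · obtain ⟨p, hp, hrp, hpk⟩ := not_padm hdeg hadm
    have hpD : p ≤ D := by
      rcases hpk with h | ⟨h, hh, hc⟩
      · exact h
      · exact absurd hc (irr_prim (hirr h hh).1 (hirr h hh).2 hp)
    have h1 : ν p = p := by
      apply le_antisymm (hν2 p hp)
      have := hν1 p hp
      rwa [hrp, card_range] at this
    have h2 := prod_zero (x := x) hp (by omega) (ρ := ν) h1 k
    show c * c' * (∏ p ∈ (Icc 1 x).filter Nat.Prime, (1 - ((ν p : ℕ) : ℝ) / p) / (1 - 1 / (p : ℝ)) ^ k) * _ ≤ _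
    rw [h2, mul_zero, zero_mul]
    exact Nat.cast_nonneg _
  have hlead : ∀ h : ℤ[X], h.natDegree = 1 → h.leadingCoeff = h.coeff 1 := by
    intro h hh
    rw [leadingCoeff, hh]
  rw [hlead f hf1] at hfK
  rw [hlead g hg1] at hgK
  have hmain := hB₀ x (by omega) y hy F (by omega) hco f hf g hg hf1 hg1 hfK hgK hf0 hg0 hfg hfg' hadm
  have hser := hform c hc x (by omega) (TP F) ν hν1 hν2
  refine (hser.trans hmain).trans (card_le_ncard x ?_ ?_)
  · intro n hn
    rw [mem_SysP] at hn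
    obtain ⟨⟨h1, h2⟩, h3⟩ := hn
    exact ⟨h1, h2, h3⟩
  · intro n hn
    exact hn.2.1

end Pool.Agent.Results.MP_51e72e_nt.ChenTwoLinear
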