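import Mathlib
import Pool.Agent.H77.BV.De2

/-! # The normal law for the error term in the Bateman-Horn conjecture for random systems of polynomials -/

set_option autoImplicit false

namespace Pool.Agent.Results.MP_51e72e_nt.ErrorGaussian

open Finset Polynomial Pool.Agent.H77.BV

open Classical in
/-- **The normal law for the error term.** Let `s ≥ 1`, `B ≥ 1` and `ε > 0`. If the degree `d` of the random part is large
(in terms of `s`, `B` and `ε`), then for all `D ≥ d`, `κ > 0` and `V` there are `K` and `H₀` such that for all `H ≥ H₀`, all fixed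
polynomials `h_1, ..., h_s` of degree at most `D` with `|h_i(n)| ≤ H (log H)^B` for `n ≤ (log H)^B`, all
`α ≤ β ≤ z ≤ (log H)^B` with `β - α ≥ K (log H)^s`, all weights `b_n` with `|b_n| ≤ 1`, variation at most `V` and
`∑ b_n^2 ≥ κ (β - α)`, and all real `t`: among the systems `f_i = h_i + ∑_{j ≤ d} a_{ij} X^j`, `|a_{ij}| ≤ H`, with `C_F(z) ≠ 0`,
the proportion of those with
`∑_{α < n ≤ β} b_n (∏_i log |f_i(n)| · 1[all |f_i(n)| prime] - C_F(z)) ≤ t √(C_F(z) (log H)^s ∑ b_n^2)` differs from the value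
`Φ(t)` of the normal distribution function by at most `ε` (relative to the number of all systems). -/
theorem result : ∀ s B : ℕ, 1 ≤ s → 1 ≤ B → ∀ ε : ℝ, 0 < ε → ∃ d₀ : ℕ, ∀ d D : ℕ, d₀ ≤ d → d ≤ D →
    ∀ κ V : ℝ, 0 < κ → 0 ≤ V → ∃ K : ℝ, ∃ H₀ : ℕ, ∀ H : ℕ, H₀ ≤ H → ∀ z : ℕ, (z : ℝ) ≤ Real.log H ^ B →
    ∀ h : Fin s → ℤ[X], (∀ i, (h i).natDegree ≤ D) →
    (∀ i, ∀ n : ℕ, (n : ℝ) ≤ Real.log H ^ B → |(((h i).eval (n : ℤ) : ℤ) : ℝ)| ≤ H * Real.log H ^ B) →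
    ∀ α β : ℕ, α ≤ β → β ≤ z → ∀ b : ℕ → ℝ, (∀ n, |b n| ≤ 1) → ∑ n ∈ Ioc α β, |b (n + 1) - b n| ≤ V →
    K * Real.log H ^ s ≤ (β : ℝ) - α → κ * ((β : ℝ) - α) ≤ ∑ n ∈ Ioc α β, b n ^ 2 → ∀ t : ℝ,
    |(((coeffBox s d H).filter (fun a => constF (randPoly h a) z ≠ 0 ∧ errorSum (randPoly h a) z α β b ≤
        t * √(constF (randPoly h a) z * (Real.log H ^ s * ∑ n ∈ Ioc α β, b n ^ 2)))).card : ℝ) -
      (ProbabilityTheory.gaussianReal 0 1).real (Set.Iic t) *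
        ((coeffBox s d H).filter (fun a => constF (randPoly h a) z ≠ 0)).card| ≤
      ε * (coeffBox s d H).card := by
  intro s B hs hB ε hε
  obtain ⟨d₀, hd₀⟩ := clt s B hs hB ε hε
  refine ⟨d₀, fun d D hd hdD κ V hκ hV => ?_⟩
  obtain ⟨K, H₀, h₀⟩ := hd₀ d D hd hdD κ V hκ hV
  refine ⟨K, H₀, fun H hH z hz h hD hv α β hαβ hβ b hb hTV hK hκB t => ?_⟩
  have h1 := h₀ H hH z hz h hD hv α β hαβ hβ b hb hTV hK hκB 0 t
  rw [coeffBox_eq]
  simp only [errorSum_eq, constF_eq]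
  exact h1

end Pool.Agent.Results.MP_51e72e_nt.ErrorGaussian
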