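import Mathlib
import Pool.Agent.H77.BV.De2

/-! # The variance of the error term in the Bateman-Horn conjecture for random systems of polynomials -/

set_option autoImplicit false

namespace Pool.Agent.Results.MP_51e72e_nt.ErrorVariance

open Finset Polynomial Pool.Agent.H77.BV

/-- **The variance of the error term.** Let `s, d ≥ 1` and `D ≥ d`, `B`, `ε > 0`. For `H` large, for all fixed polynomials
`h_1, ..., h_s` of degree at most `D` with `|h_i(n)| ≤ H (log H)^B` for `n ≤ (log H)^B`, all `α < β ≤ z ≤ (log H)^B` and all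
weights `b_n`, `|b_n| ≤ 1`, of small variation, the mean value of the square of
`∑_{α < n ≤ β} b_n (∏_i log |f_i(n)| · 1[all |f_i(n)| prime] - C_F(z))` over the systems `f_i = h_i + ∑_{j ≤ d} a_{ij} X^j`,
`|a_{ij}| ≤ H`, is `(1 + O(ε)) (log H)^s ∑ b_n^2`. -/
theorem result : ∀ s d D B : ℕ, 1 ≤ s → 1 ≤ d → d ≤ D → ∀ ε : ℝ, 0 < ε → ∃ H₀ : ℕ, ∀ H : ℕ, H₀ ≤ H →
    ∀ z : ℕ, (z : ℝ) ≤ Real.log H ^ B → ∀ h : Fin s → ℤ[X], (∀ i, (h i).natDegree ≤ D) →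
    (∀ i, ∀ n : ℕ, (n : ℝ) ≤ Real.log H ^ B → |(((h i).eval (n : ℤ) : ℤ) : ℝ)| ≤ H * Real.log H ^ B) →
    ∀ α β : ℕ, α < β → β ≤ z → ∀ b : ℕ → ℝ, (∀ n, |b n| ≤ 1) →
    (∑ n ∈ Ioc α β, |b (n + 1) - b n| + 1) * ((β : ℝ) - α) * √(Real.log H) ≤ Real.log H ^ s * ∑ n ∈ Ioc α β, b n ^ 2 →
    |∑ a ∈ coeffBox s d H, errorSum (randPoly h a) z α β b ^ 2 -
      Real.log H ^ s * (∑ n ∈ Ioc α β, b n ^ 2) * (coeffBox s d H).card| ≤
      ε * (Real.log H ^ s * ∑ n ∈ Ioc α β, b n ^ 2) * (coeffBox s d H).card := by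
  intro s d D B hs hd hdD ε hε
  obtain ⟨H₀, h₀⟩ := variance s d D B hs hd hdD ε hε
  refine ⟨H₀, fun H hH z hz h hD hv α β hαβ hβ b hb hcond => ?_⟩
  have h1 := h₀ H hH z hz h hD hv 0 α β hαβ hβ b hb hcond
  rw [coeffBox_eq]
  simp only [errorSum_eq]
  exact h1

end Pool.Agent.Results.MP_51e72e_nt.ErrorVariance
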