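import Pool.Agent.H76.NA.Sys

/-!
# Szemerédi's theorem, with narrow progressions, inside the sets of Chen's theorem for systems of polynomials
-/

set_option autoImplicit false

namespace Pool.Agent.Results.MP_51e72e_nt.SzemerediTwoLinear

open Finset Polynomial Pool.Agent.H76.CL Pool.Agent.H76.CP Pool.Agent.H76.NA

/-- **Szemerédi's theorem for Chen type values of systems of polynomials.**  Let `D` and `K ≥ 1` be integers and let
`θ > 0`.  There are `ε > 0` and `r` such that for all `m` and `δ > 0` there are `C` and `x₀` with the following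
property.  Let `x ≥ x₀` and `y ≤ (1 - θ) x`, let `F` be a finite set of polynomials with integer coefficients whose
product has no fixed prime divisor, with the sum of the degrees at most `D` and coefficients at most `x ^ K` in absolute
value, let `f ≠ ± g` be linear polynomials in `F` with leading coefficients at most `K` and constant terms at most `K x`
in absolute value, and let `T` be the set of the integers `y < n ≤ x` for which `|f n|` is a prime, `|g n|` is a prime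
or a product of two primes, both `≥ x ^ (1 / 9)`, and all the `|h n|`, `h` in `F`, are different from zero and have at
most `r` prime factors, all of them `≥ x ^ ε`.  Then every subset `S` of `T` with at least `δ |T|` elements contains an
arithmetic progression of `m` terms with a difference `1 ≤ d ≤ (log x) ^ C`. -/
theorem result : ∀ D K : ℕ, 1 ≤ K → ∀ θ : ℝ, 0 < θ →
    ∃ ε : ℝ, 0 < ε ∧ ∃ r : ℕ, ∀ (m : ℕ) (δ : ℝ), 0 < δ → ∃ C x₀ : ℕ, ∀ x : ℕ, x₀ ≤ x → ∀ y : ℕ,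
      (y : ℝ) + θ * x ≤ x →
      ∀ F : Finset ℤ[X], ∑ h ∈ F, h.natDegree ≤ D → (∀ h ∈ F, ∀ i, |h.coeff i| ≤ (x : ℤ) ^ K) →
      (∀ p : ℕ, p.Prime → ∃ n : ℤ, ¬ (p : ℤ) ∣ ∏ h ∈ F, h.eval n) →
      ∀ f ∈ F, ∀ g ∈ F, f ≠ g → f ≠ -g → f.natDegree = 1 → g.natDegree = 1 →
      |f.leadingCoeff| ≤ K → |g.leadingCoeff| ≤ K → |f.coeff 0| ≤ K * x → |g.coeff 0| ≤ K * x →
      ∀ T : Set ℕ, T = {n : ℕ | y < n ∧ n ≤ x ∧ (f.eval (n : ℤ)).natAbs.Prime ∧
            (g.eval (n : ℤ)).natAbs.primeFactorsList.length ≤ 2 ∧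
            (∀ q ∈ (g.eval (n : ℤ)).natAbs.primeFactors, (x : ℝ) ^ (1 / 9 : ℝ) ≤ q) ∧
            ∀ h ∈ F, h.eval (n : ℤ) ≠ 0 ∧ (h.eval (n : ℤ)).natAbs.primeFactorsList.length ≤ r ∧
              ∀ q ∈ (h.eval (n : ℤ)).natAbs.primeFactors, (x : ℝ) ^ ε ≤ q} →
      ∀ S : Set ℕ, S ⊆ T → δ * (T.ncard : ℝ) ≤ (S.ncard : ℝ) →
        ∃ a d : ℕ, 1 ≤ d ∧ (d : ℝ) ≤ Real.log x ^ C ∧ ∀ j < m, a + j * d ∈ S := by
  classical
  intro D K hK θ hθ
  obtain ⟨ε, hε0, r, h⟩ := szem_poly (D + 2) K (by omega) hK θ hθ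
  refine ⟨ε, hε0, r, fun m δ hδ => ?_⟩
  obtain ⟨C, B₀, hB₀⟩ := h m δ hδ
  refine ⟨C, B₀, ?_⟩
  intro x hx y hy F hdeg hco hadm f hf g hg hfg hfg' hf1 hg1 hfK hgK hf0 hg0 T hT S hST hδS
  have hAdm : PAdm F := by
    intro p hp
    obtain ⟨n, hn⟩ := hadm p hp
    exact ⟨n, fun h hh hd => hn (hd.trans (dvd_prod_of_mem (fun h : ℤ[X] => h.eval n) hh))⟩
  have hlead : ∀ h : ℤ[X], h.natDegree = 1 → h.leadingCoeff = h.coeff 1 := by
    intro h hh
    rw [leadingCoeff, hh]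
  rw [hlead f hf1] at hfK
  rw [hlead g hg1] at hgK
  have hTf : T = (SysQ f g F y x r ε : Set ℕ) := by
    rw [hT]
    ext n
    rw [Set.mem_setOf_eq, mem_coe, mem_SysQ]
    constructor
    · rintro ⟨h1, h2, h3, h4, h5, h6⟩
      exact ⟨⟨⟨h1, h2⟩, h3, h4, h5, fun h hh => (h6 h hh).2⟩, fun h hh => (h6 h hh).1⟩
    · rintro ⟨⟨⟨h1, h2⟩, h3, h4, h5, h6⟩, h7⟩
      exact ⟨h1, h2, h3, h4, h5, fun h hh => ⟨h7 h hh, h6 h hh⟩⟩
  have hSf : S.Finite := by
    apply Set.Finite.subset _ hST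
    rw [hTf]
    exact finite_toSet _
  obtain ⟨a, d, h1, h2, h3⟩ := hB₀ x hx y hy F (by omega) hco f hf g hg hf1 hg1 hfK hgK hf0 hg0 hfg hfg' hAdm
    hSf.toFinset (by
      intro n hn
      rw [Set.Finite.mem_toFinset] at hn
      have := hST hn
      rwa [hTf, mem_coe] at this) (by
      rw [← Set.ncard_eq_toFinset_card S hSf, ← Set.ncard_coe_finset, ← hTf]
      exact hδS)
  exact ⟨a, d, h1, h2, fun j hj => (Set.Finite.mem_toFinset hSf).1 (h3 j hj)⟩

end Pool.Agent.Results.MP_51e72e_nt.SzemerediTwoLinear
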